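import Pool.Agent.helper4.NF.SpecB

/-!
# Project nf (MP_4467b5_nt): module LVR (real numbers)
-/

set_option autoImplicit false

open Complex MeasureTheory

namespace Pool.Agent.NF

open Pool.Agent.helper84.DM Pool.Agent.helper78.ED Pool.Agent.DH Pool.Agent.ZD

theorem LVR : LVR_stmt := by
  intro R V K N L T hR hK hN hT hNV hL1 hL2 h
  have hN0 : 0 < N := by linarith
  have hT0 : 0 < T := by linarith
  have hK0 : 0 < K := by linarith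
  -- `u = T ^ (1/4)`
  obtain ⟨u, hu, hu4⟩ : ∃ u : ℝ, 0 < u ∧ u ^ 4 = T := by
    refine ⟨T ^ (1 / 4 : ℝ), Real.rpow_pos_of_pos hT0 _, ?_⟩
    rw [← Real.rpow_natCast, ← Real.rpow_mul hT0.le]
    norm_num
  have hT12 : T ^ (1 / 2 : ℝ) = u ^ 2 := by
    rw [← hu4, ← Real.rpow_natCast u 4, ← Real.rpow_mul hu.le, ← Real.rpow_natCast u 2]
    norm_num
  have hT34 : T ^ (3 / 4 : ℝ) = u ^ 3 := by
    rw [← hu4, ← Real.rpow_natCast u 4, ← Real.rpow_mul hu.le, ← Real.rpow_natCast u 3]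
    norm_num
  have hn0 : 0 < N ^ (1 / 2 : ℝ) := Real.rpow_pos_of_pos hN0 _
  have hV : 0 < V := lt_of_lt_of_le hn0 hNV
  have hNV2 : N ≤ V ^ 2 := by
    have h1 : (N ^ (1 / 2 : ℝ)) ^ 2 = N := by
      rw [← Real.rpow_natCast, ← Real.rpow_mul hN0.le]
      norm_num
    calc N = (N ^ (1 / 2 : ℝ)) ^ 2 := h1.symm
      _ ≤ V ^ 2 := by gcongr
  rw [hT12] at hL1 hL2
  rw [hT12, hT34]
  have hL : 0 < L := lt_of_lt_of_le (by positivity) hL1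
  have hNL1 : u ^ 2 ≤ N * L := by
    rw [div_le_iff₀ hN0] at hL1
    linarith
  have hNL2 : N * L ≤ 2 * u ^ 2 := by
    have h1 : L * N ≤ 2 * (u ^ 2 / N) * N := by gcongr
    have h2 : 2 * (u ^ 2 / N) * N = 2 * u ^ 2 := by field_simp
    linarith
  rcases h with h | h
  · -- first alternative
    have h1 : R * V ^ 4 ≤ 2 * K * (u ^ 2 * N ^ 3) := by
      calc R * V ^ 4 = R * (V ^ 2) ^ 2 := by ring
        _ ≤ K * ((N * N) ^ 2 * L) := h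
        _ = K * N ^ 3 * (N * L) := by ring
        _ ≤ K * N ^ 3 * (2 * u ^ 2) := by gcongr
        _ = 2 * K * (u ^ 2 * N ^ 3) := by ring
    have h2 : R ≤ 2 * K * (u ^ 2 * N ^ 3 / V ^ 4) := by
      rw [← mul_div_assoc, le_div_iff₀ (by positivity)]
      exact h1
    refine h2.trans ?_
    have h3 : 0 ≤ u ^ 3 * N ^ 4 / V ^ 6 := by positivity
    have h4 : 0 ≤ u ^ 4 * N ^ 4 / V ^ 7 := by positivity
    have h5 : 0 ≤ u ^ 2 * N ^ 3 / V ^ 4 := by positivity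
    rw [← hu4]
    calc 2 * K * (u ^ 2 * N ^ 3 / V ^ 4) ≤ 14 * K * (u ^ 2 * N ^ 3 / V ^ 4) := by gcongr; norm_num
      _ ≤ 14 * K * (u ^ 3 * N ^ 4 / V ^ 6 + u ^ 4 * N ^ 4 / V ^ 7 + u ^ 2 * N ^ 3 / V ^ 4) := by
          gcongr
          linarith
  · -- second alternative
    have hb1 : (2 * V) ^ 2 * (N * N * L) ≤ 8 * N * V ^ 2 * u ^ 2 := by
      calc (2 * V) ^ 2 * (N * N * L) = 4 * V ^ 2 * N * (N * L) := by ring
        _ ≤ 4 * V ^ 2 * N * (2 * u ^ 2) := by gcongr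
        _ = 8 * N * V ^ 2 * u ^ 2 := by ring
    have hb3 : (N ^ 3 * (2 * V) ^ 2 * T) ^ (1 / 2 : ℝ) ≤ 2 * N * V ^ 2 * u ^ 2 := by
      have h1 : N ^ 3 * (2 * V) ^ 2 * T ≤ (2 * N * V ^ 2 * u ^ 2) ^ 2 := by
        rw [← hu4]
        calc N ^ 3 * (2 * V) ^ 2 * u ^ 4 = 4 * N ^ 2 * V ^ 2 * u ^ 4 * N := by ring
          _ ≤ 4 * N ^ 2 * V ^ 2 * u ^ 4 * V ^ 2 := by gcongr
          _ = (2 * N * V ^ 2 * u ^ 2) ^ 2 := by ring
      calc (N ^ 3 * (2 * V) ^ 2 * T) ^ (1 / 2 : ℝ)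
          ≤ ((2 * N * V ^ 2 * u ^ 2) ^ 2) ^ (1 / 2 : ℝ) := by gcongr
        _ = 2 * N * V ^ 2 * u ^ 2 := by
            rw [← Real.rpow_natCast, ← Real.rpow_mul (by positivity)]
            norm_num
    have hb4 : (2 * V) ^ 2 * N * T / (N * L) ≤ 4 * N * V ^ 2 * u ^ 2 := by
      rw [div_le_iff₀ (by positivity), ← hu4]
      calc (2 * V) ^ 2 * N * u ^ 4 = 4 * N * V ^ 2 * u ^ 2 * u ^ 2 := by ring
        _ ≤ 4 * N * V ^ 2 * u ^ 2 * (N * L) := by gcongr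
    have hbr : (2 * V) ^ 2 * (N * N * L) + N * T + (N ^ 3 * (2 * V) ^ 2 * T) ^ (1 / 2 : ℝ) +
        (2 * V) ^ 2 * N * T / (N * L) ≤ 14 * N * V ^ 2 * u ^ 2 + N * T := by linarith
    have h1 : L * (V ^ 14 * R ^ 2) ≤ L * (K * N ^ 8 * u ^ 4 * (14 * V ^ 2 * u ^ 2 + u ^ 4)) := by
      calc L * (V ^ 14 * R ^ 2) = V ^ 2 * (L * (V ^ 2) ^ 6 * R ^ 2) := by ring
        _ ≤ K * ((N * N) ^ 2 * N * (N * L * T * N)) *
            ((2 * V) ^ 2 * (N * N * L) + N * T + (N ^ 3 * (2 * V) ^ 2 * T) ^ (1 / 2 : ℝ) +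
              (2 * V) ^ 2 * N * T / (N * L)) := h
        _ ≤ K * ((N * N) ^ 2 * N * (N * L * T * N)) * (14 * N * V ^ 2 * u ^ 2 + N * T) := by
            gcongr
        _ = L * (K * N ^ 8 * u ^ 4 * (14 * V ^ 2 * u ^ 2 + u ^ 4)) := by
            rw [← hu4]
            ring
    have h2 : V ^ 14 * R ^ 2 ≤ K * N ^ 8 * u ^ 4 * (14 * V ^ 2 * u ^ 2 + u ^ 4) :=
      le_of_mul_le_mul_left h1 hL
    set A := u ^ 3 * N ^ 4 / V ^ 6 with hA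
    set B := u ^ 4 * N ^ 4 / V ^ 7 with hB
    set C := u ^ 2 * N ^ 3 / V ^ 4 with hC
    have hA0 : 0 ≤ A := by positivity
    have hB0 : 0 ≤ B := by positivity
    have hC0 : 0 ≤ C := by positivity
    have h3 : R ^ 2 ≤ 14 * K * (A ^ 2 + B ^ 2) := by
      have h4 : V ^ 14 * (A ^ 2 + B ^ 2) = N ^ 8 * u ^ 4 * (V ^ 2 * u ^ 2 + u ^ 4) := by
        rw [hA, hB]
        field_simp
      have h5 : V ^ 14 * R ^ 2 ≤ V ^ 14 * (14 * K * (A ^ 2 + B ^ 2)) := by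
        calc V ^ 14 * R ^ 2 ≤ K * N ^ 8 * u ^ 4 * (14 * V ^ 2 * u ^ 2 + u ^ 4) := h2
          _ ≤ K * N ^ 8 * u ^ 4 * (14 * V ^ 2 * u ^ 2 + 14 * u ^ 4) := by
              gcongr
              nlinarith [pow_pos hu 4]
          _ = 14 * K * (N ^ 8 * u ^ 4 * (V ^ 2 * u ^ 2 + u ^ 4)) := by ring
          _ = V ^ 14 * (14 * K * (A ^ 2 + B ^ 2)) := by rw [← h4]; ring
      exact le_of_mul_le_mul_left h5 (by positivity)
    have h4 : R ^ 2 ≤ (14 * K * (A + B + C)) ^ 2 := by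
      refine h3.trans ?_
      have h5 : A ^ 2 + B ^ 2 ≤ (A + B + C) ^ 2 := by nlinarith [mul_nonneg hA0 hB0, mul_nonneg hA0 hC0, mul_nonneg hB0 hC0]
      have h6 : 14 * K ≤ (14 * K) ^ 2 := by nlinarith
      calc 14 * K * (A ^ 2 + B ^ 2) ≤ (14 * K) ^ 2 * (A + B + C) ^ 2 := by gcongr
        _ = (14 * K * (A + B + C)) ^ 2 := by ring
    have h5 : R ≤ 14 * K * (A + B + C) :=
      (pow_le_pow_iff_left₀ hR (by positivity) two_ne_zero).mp h4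
    rw [← hu4]
    exact h5

end Pool.Agent.NF
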